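import Pool.Agent.Helper79.OE.GoalsD

/-!
Project OE, packet MEO: measurability of the list of the updates.
-/

open MeasureTheory Pool.Agent.Helper73.OE Pool.Agent.Helper79.OE
open scoped ENNReal

set_option linter.unusedSectionVars false

namespace Pool.Agent.Helper26.OE

variable {H S L : Type} [Group H]

lemma meas_fst (e : H × S) : Measurable fun η : Env H S => ((η e).1 : ℝ) :=
  measurable_subtype_coe.comp (measurable_fst.comp (measurable_pi_apply e))

lemma meas_snd (e : H × S) : Measurable fun η : Env H S => ((η e).2 : ℝ) :=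
  measurable_subtype_coe.comp (measurable_snd.comp (measurable_pi_apply e))

lemma meas_prio (X : Sys H S L) (e : H × S) : Measurable fun η : Env H S => X.prio η e := by
  unfold Sys.prio
  exact (meas_snd e).max (meas_snd (X.rev e))

lemma meas_Pos (X : Sys H S L) (e : H × S) : MeasurableSet {η : Env H S | X.Pos η e} := by
  unfold Sys.Pos
  exact measurableSet_lt (meas_snd e) (meas_snd (X.rev e))

lemma meas_Cl (X : Sys H S L) (ε : ℝ) (v : H) (s : S) :
    MeasurableSet {η : Env H S | X.Cl ε η v s} := by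
  unfold Sys.Cl
  exact (measurableSet_le ((meas_fst (v, s)).pow_const 2) measurable_const).inter
    (measurableSet_le ((meas_fst (X.rev (v, s))).pow_const 2) measurable_const)

lemma meas_Si (X : Sys H S L) (ε ε' : ℝ) (v : H) (s : S) :
    MeasurableSet {η : Env H S | X.Si ε ε' η v s} := by
  unfold Sys.Si
  exact (meas_Cl X ε v s).inter (meas_Cl X ε' v s).compl

lemma meas_pw (X : Sys H S L) (l : List (H × S)) :
    MeasurableSet {η : Env H S | l.Pairwise (fun e e' => X.prio η e < X.prio η e')} := by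
  induction l with
  | nil => simp
  | cons a l ih =>
    simp only [List.pairwise_cons]
    refine MeasurableSet.inter ?_ ih
    have h : {η : Env H S | ∀ e' ∈ l, X.prio η a < X.prio η e'} =
        ⋂ e' ∈ {e' : H × S | e' ∈ l}, {η : Env H S | X.prio η a < X.prio η e'} := by
      ext η
      simp
    have hfin : {e' : H × S | e' ∈ l}.Finite := by
      classical
      exact l.finite_toSet
    change MeasurableSet {η : Env H S | ∀ e' ∈ l, X.prio η a < X.prio η e'}
    rw [h]
    exact MeasurableSet.biInter hfin.countable fun e' _ =>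
      measurableSet_lt (meas_prio X a) (meas_prio X e')

lemma meas_IsOrd [Countable H] [Finite S] (X : Sys H S L) (ε ε' : ℝ) (Λ : Set H)
    (l : List (H × S)) : MeasurableSet {η : Env H S | X.IsOrd ε ε' η Λ l} := by
  unfold Sys.IsOrd
  refine MeasurableSet.inter (meas_pw X l) ?_
  change MeasurableSet {η : Env H S | ∀ e, e ∈ l ↔
    (X.Si ε ε' η e.1 e.2 ∧ e.1 ∈ Λ ∧ X.nb e.1 e.2 ∈ Λ ∧ X.Pos η e)}
  have h : {η : Env H S | ∀ e, e ∈ l ↔
      (X.Si ε ε' η e.1 e.2 ∧ e.1 ∈ Λ ∧ X.nb e.1 e.2 ∈ Λ ∧ X.Pos η e)} =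
      ⋂ e : H × S, {η : Env H S | e ∈ l ↔
        (X.Si ε ε' η e.1 e.2 ∧ e.1 ∈ Λ ∧ X.nb e.1 e.2 ∈ Λ ∧ X.Pos η e)} := by
    ext η
    simp
  rw [h]
  refine MeasurableSet.iInter fun e => ?_
  have hc : MeasurableSet {η : Env H S |
      X.Si ε ε' η e.1 e.2 ∧ e.1 ∈ Λ ∧ X.nb e.1 e.2 ∈ Λ ∧ X.Pos η e} :=
    (meas_Si X ε ε' e.1 e.2).inter ((MeasurableSet.const _).inter
      ((MeasurableSet.const _).inter (meas_Pos X e)))
  by_cases he : e ∈ l
  · simp only [he, true_iff]
    exact hc
  · simp only [he, false_iff]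
    exact hc.compl

theorem meo : D_MEO := by
  intro hord H S L _ _ _ X ε ε' Λ l
  have hU : MeasurableSet (⋃ l' : List (H × S), {η : Env H S | X.IsOrd ε ε' η Λ l'}) :=
    MeasurableSet.iUnion fun l' => meas_IsOrd X ε ε' Λ l'
  have h : {η : Env H S | X.ordL ε ε' η Λ = l} = {η : Env H S | X.IsOrd ε ε' η Λ l} ∪
      ({_η : Env H S | l = []} ∩ (⋃ l' : List (H × S), {η : Env H S | X.IsOrd ε ε' η Λ l'})ᶜ) := by
    ext η
    simp only [Set.mem_union, Set.mem_inter_iff, Set.mem_compl_iff, Set.mem_iUnion,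
      Set.mem_ofPred_eq]
    unfold Sys.ordL
    by_cases hex : ∃ l', X.IsOrd ε ε' η Λ l'
    · rw [dif_pos hex]
      constructor
      · intro h1
        left
        rw [← h1]
        exact hex.choose_spec
      · rintro (h1 | h1)
        · exact (hord X ε ε' η Λ).1 _ _ hex.choose_spec h1
        · exact absurd hex h1.2
    · rw [dif_neg hex]
      constructor
      · intro h1
        right
        exact ⟨h1.symm, hex⟩
      · rintro (h1 | h1)
        · exact absurd ⟨l, h1⟩ hex
        · exact h1.1.symm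
  rw [h]
  exact (meas_IsOrd X ε ε' Λ l).union ((MeasurableSet.const _).inter hU.compl)

end Pool.Agent.Helper26.OE
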